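import Pool.Agent.Helper11.M3.Goals4b
import Pool.Agent.Helper17.PP0.MNS
import Pool.Agent.Helper22.PP.CDEC

/-!
# Project M3 (MP_fc6b1e_nt, step 2): packet U_MNS

The main terms for the small blocks. Adaptation of `Pool/Agent/Helper17/PP0/MNS.lean` (Z_MNS).
-/

set_option autoImplicit false

namespace Pool.Agent.Helper32.M3

open Finset Pool.Agent.Helper17.PP Pool.Agent.Helper17.PP0 Pool.Agent.Helper11.M3
open Pool.Agent.Helper17.PP0.MNS

section sys

variable {p : ℕ} {B B₀ k U Λ C : Type} [Field k] [AddCommGroup U] [Module k U]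
    [AddCommGroup Λ] [Module k Λ] [AddCommGroup C] (S : Sys p B B₀ k U Λ C)

theorem one_le_bl (q : B) : 1 ≤ S.bl q := by
  have h := S.two_le q
  unfold Sys.bl
  exact Nat.log_pos (by norm_num) h

theorem below_succ_sum (n : ℕ) (F : B → ℝ) :
    ∑ q ∈ S.below (n + 1), F q = ∑ q ∈ S.below n, F q + ∑ q ∈ S.blk n, F q := by
  classical
  have h : S.below (n + 1) = S.below n ∪ S.blk n := by
    ext q
    rw [Finset.mem_union, mem_below', mem_below', mem_blk']
    omega
  have hd : Disjoint (S.below n) (S.blk n) := by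
    rw [Finset.disjoint_left]
    intro q hq hq'
    rw [mem_below'] at hq
    rw [mem_blk'] at hq'
    omega
  rw [h, Finset.sum_union hd]

/-- The sum over the primes in the blocks `≤ j`. -/
theorem sum_below_le (K : ℝ) (hK : 0 ≤ K)
    (hche : ∀ j : ℕ, 1 ≤ j → ∑ q ∈ S.blk j, (1 : ℝ) / S.N q ≤ K / j) (j : ℕ) (hj : 1 ≤ j) :
    ∑ q ∈ S.below (j + 1), (1 : ℝ) / S.N q ≤ K * (1 + Real.log j) := by
  induction j, hj using Nat.le_induction with
  | base =>
    have h : S.below 1 = ∅ := by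
      rw [Finset.eq_empty_iff_forall_notMem]
      intro q hq
      rw [mem_below'] at hq
      have := one_le_bl S q
      omega
    rw [below_succ_sum, h, Finset.sum_empty, zero_add]
    have := hche 1 le_rfl
    simpa using this
  | succ n hn ih =>
    rw [below_succ_sum]
    have h1 := hche (n + 1) (by omega)
    have hn0 : (0 : ℝ) < n := by exact_mod_cast hn
    have h2 : (1 : ℝ) / ((n + 1 : ℕ) : ℝ) ≤ Real.log ((n + 1 : ℕ) : ℝ) - Real.log n := by
      rw [← Real.log_div (by positivity) hn0.ne']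
      have h3 := Real.one_sub_inv_le_log_of_pos (x := ((n + 1 : ℕ) : ℝ) / n) (by positivity)
      refine le_trans (le_of_eq ?_) h3
      push_cast
      field_simp
      ring
    have h4 : K / ((n + 1 : ℕ) : ℝ) ≤ K * (Real.log ((n + 1 : ℕ) : ℝ) - Real.log n) := by
      rw [div_eq_mul_one_div]
      exact mul_le_mul_of_nonneg_left h2 hK
    calc ∑ q ∈ S.below (n + 1), (1 : ℝ) / S.N q + ∑ q ∈ S.blk (n + 1), (1 : ℝ) / S.N q
        ≤ K * (1 + Real.log n) + K / ((n + 1 : ℕ) : ℝ) := add_le_add ih h1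
      _ ≤ K * (1 + Real.log n) + K * (Real.log ((n + 1 : ℕ) : ℝ) - Real.log n) := by linarith
      _ = K * (1 + Real.log ((n + 1 : ℕ) : ℝ)) := by ring

end sys

theorem u_mns_of (hdec : C_DEC) : Pool.Agent.Helper11.M3.U_MNS := by
  classical
  intro p _ B B₀ k U Λ C _ _ _ _ _ _ _ _ _ _ _ S ψ g K hH
  have hK1 : (1 : ℝ) ≤ K := by exact_mod_cast hH.one_le
  have hK0 : (0 : ℝ) < K := by linarith
  obtain ⟨Qn, hQn⟩ : ∃ Qn : ℕ, Qn = Fintype.card k := ⟨_, rfl⟩
  obtain ⟨Q, hQe⟩ : ∃ Q : ℝ, Q = (Qn : ℝ) := ⟨_, rfl⟩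
  obtain ⟨K₁, hK₁⟩ : ∃ K₁ : ℕ, (K : ℝ) ^ 3 * Real.exp K * Real.exp (Q * K) ≤ K₁ :=
    exists_nat_ge _
  obtain ⟨K', hK'⟩ : ∃ K' : ℕ, K' = K₁ + Qn * K := ⟨_, rfl⟩
  refine ⟨K', fun E j X P hj hjt hX hlg => ?_⟩
  have hX0 : 0 < X := by linarith
  have hQ : 2 ≤ Q := by
    rw [hQe, hQn]
    have h : 1 < Fintype.card k := Fintype.one_lt_card
    exact_mod_cast h
  have hQ0 : 0 < Q := by linarith
  have hQ1 : 1 / Q ≤ 1 / 2 := one_div_le_one_div_of_le (by norm_num) hQ
  rw [← hQn, ← hQe]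
  -- the function
  obtain ⟨f, hf⟩ : ∃ f : B → ℝ, f = fun q' => if S.spl q' ∧ S.bl q' < j then Q else
    if S.spl q' ∧ j < S.bl q' ∧ S.bl q' ≤ th E j then 1 / Q else 1 := ⟨_, rfl⟩
  have hf01 : ∀ q, 0 ≤ f q ∧ f q ≤ Q := by
    intro q
    rw [hf]
    dsimp only
    split_ifs
    · exact ⟨by linarith, le_refl _⟩
    · exact ⟨by positivity, by linarith⟩
    · exact ⟨by norm_num, by linarith⟩
  obtain ⟨F, hF⟩ : ∃ F : B → Finset B → ℝ, F = fun q r => if S.bl q = j then
    (∏ q' ∈ r, f q') * Real.exp (-(S.nm r / (X / S.N q))) else 0 := ⟨_, rfl⟩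
  have hprod0 : ∀ r : Finset B, 0 ≤ ∏ q' ∈ r, f q' := fun r =>
    Finset.prod_nonneg fun q _ => (hf01 q).1
  have hF0 : ∀ q r, 0 ≤ F q r := by
    intro q r
    rw [hF]
    dsimp only
    split_ifs
    · exact mul_nonneg (hprod0 r) (Real.exp_pos _).le
    · exact le_refl _
  have hN0 : ∀ q, (0 : ℝ) < S.N q := by
    intro q
    have h := S.two_le q
    exact_mod_cast (by omega : 0 < S.N q)
  -- step 1
  have h1 : ∑ b ∈ P.powerset, ∑ q ∈ b with (S.Wt E b q ∧ S.bl q = j),
        Q ^ (S.rs b q).card * (1 / Q : ℝ) ^ (S.rt E b q).card * Real.exp (-(S.nm b / X)) ≤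
      ∑ b ∈ P.powerset, ∑ q ∈ b, F q (b.erase q) := by
    refine Finset.sum_le_sum fun b _ => ?_
    rw [Finset.sum_filter]
    refine Finset.sum_le_sum fun q hq => ?_
    split_ifs with h
    · refine le_of_eq ?_
      rw [hF]
      dsimp only
      rw [if_pos h.2]
      congr 1
      · rw [← Finset.prod_const, ← Finset.prod_const, hf]
        unfold Sys.rt Sys.rs
        rw [Finset.prod_filter, Finset.prod_filter, h.2, ← Finset.prod_mul_distrib]
        refine Finset.prod_congr rfl fun q' _ => ?_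
        dsimp only
        by_cases h5 : S.spl q' ∧ S.bl q' < j
        · have h6 : ¬ (S.spl q' ∧ j < S.bl q' ∧ S.bl q' ≤ th E j) := by
            rintro ⟨_, h7, _⟩
            exact absurd h5.2 (by omega)
          rw [if_pos h5, if_neg h6, if_pos h5, mul_one]
        · rw [if_neg h5, if_neg h5, one_mul]
      · congr 2
        rw [nm_erase S b q hq]
        have := (hN0 q).ne'
        push_cast
        field_simp
    · exact hF0 _ _
  refine h1.trans ?_
  rw [(hdec B P).1 ℝ F]
  -- step 2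
  have h2 : ∑ r ∈ P.powerset, ∑ q ∈ P \ r, F q r ≤
      ∑ r ∈ P.powerset, ∑ q ∈ S.blk j, (∏ q' ∈ r, f q') *
        Real.exp (-(S.nm r / (X / S.N q))) := by
    refine Finset.sum_le_sum fun r _ => ?_
    have h3 : ∑ q ∈ P \ r, F q r = ∑ q ∈ (P \ r).filter (fun q => S.bl q = j),
        (∏ q' ∈ r, f q') * Real.exp (-(S.nm r / (X / S.N q))) := by
      rw [Finset.sum_filter, hF]
    rw [h3]
    refine Finset.sum_le_sum_of_subset_of_nonneg ?_ fun q _ _ =>
      mul_nonneg (hprod0 r) (Real.exp_pos _).le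
    intro q hq
    rw [mem_blk']
    exact (Finset.mem_filter.1 hq).2
  refine h2.trans ?_
  rw [Finset.sum_comm]
  -- the numbers `m`, `n`
  obtain ⟨n, hn⟩ : ∃ n : ℕ, n = min (th E j + 1) (lg X - j - 1) := ⟨_, rfl⟩
  rw [← hn]
  have hn1 : j + 1 ≤ n := by rw [hn]; omega
  have hn2 : n ≤ th E j + 1 := by rw [hn]; exact min_le_left _ _
  have hn3 : n + (j + 1) ≤ lg X := by
    have h : n ≤ lg X - j - 1 := by rw [hn]; exact min_le_right _ _
    omega
  have hn0 : (0 : ℝ) < n := by
    have : 0 < n := by omega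
    exact_mod_cast this
  have hm0 : (0 : ℝ) < ((j + 1 : ℕ) : ℝ) := by exact_mod_cast Nat.succ_pos j
  obtain ⟨ρ, hρ⟩ : ∃ ρ : ℝ, ρ = (((j + 1 : ℕ) : ℝ) / (n : ℕ)) ^ (1 / (2 * K) : ℝ) := ⟨_, rfl⟩
  have hρ0 : 0 ≤ ρ := by rw [hρ]; positivity
  rw [← hρ]
  have hgX : 1 ≤ g X := hH.g_one X
  have hj0 : (0 : ℝ) < j := by exact_mod_cast hj
  -- the factor of the small blocks
  obtain ⟨σ, hσ⟩ : ∃ σ : ℝ, σ = Real.exp (Q * K) * ((j : ℝ) + 2) ^ (Qn * K) := ⟨_, rfl⟩
  have hσ0 : 0 ≤ σ := by rw [hσ]; positivity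
  have hσ1 : Real.exp ((Q - 1) * (K * (1 + Real.log j))) ≤ σ := by
    have hlog0 : 0 ≤ Real.log j := Real.log_nonneg (by exact_mod_cast hj)
    have h4 : σ = Real.exp (Q * K + (Q * K) * Real.log ((j : ℝ) + 2)) := by
      rw [hσ, Real.exp_add]
      congr 1
      rw [mul_comm (Q * (K : ℝ)), ← Real.rpow_def_of_pos (by positivity), hQe, ← Nat.cast_mul,
        Real.rpow_natCast]
    rw [h4]
    refine Real.exp_le_exp.2 ?_
    have h5 : Real.log j ≤ Real.log ((j : ℝ) + 2) := Real.log_le_log hj0 (by linarith)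
    have h6 : (Q - 1) * (K * (1 + Real.log j)) ≤ Q * (K * (1 + Real.log j)) := by
      refine mul_le_mul_of_nonneg_right (by linarith) ?_
      positivity
    have h7 : Q * (K * (1 + Real.log j)) ≤ Q * (K * (1 + Real.log ((j : ℝ) + 2))) := by
      refine mul_le_mul_of_nonneg_left ?_ hQ0.le
      exact mul_le_mul_of_nonneg_left (by linarith) hK0.le
    calc (Q - 1) * (K * (1 + Real.log j)) ≤ Q * (K * (1 + Real.log ((j : ℝ) + 2))) :=
          h6.trans h7
      _ = _ := by ring
  -- step 3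
  have h3 : ∀ q ∈ S.blk j, ∑ r ∈ P.powerset, (∏ q' ∈ r, f q') *
      Real.exp (-(S.nm r / (X / S.N q))) ≤ (K : ℝ) ^ 2 * Real.exp K * σ * ρ * (X * g X) *
        (1 / S.N q) := by
    intro q hq
    rw [mem_blk'] at hq
    have hY0 : 0 < X / S.N q := div_pos hX0 (hN0 q)
    have hN1 : (1 : ℝ) ≤ S.N q := by
      have := S.two_le q
      exact_mod_cast (by omega : 1 ≤ S.N q)
    have hYX : X / S.N q ≤ X := div_le_self hX0.le hN1
    have hht := hH.ht f (fun q => ⟨(hf01 q).1, (hf01 q).2.trans (by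
      rw [hQe, hQn]
      linarith)⟩) (X / S.N q) hY0 P
    refine hht.trans ?_
    -- the exponent
    have hsub : ∀ q' ∈ S.below n, q' ∈ S.upto (X / S.N q) := by
      intro q' hq'
      rw [mem_below'] at hq'
      rw [mem_upto' S _ hY0.le, le_div_iff₀ (hN0 q)]
      have h4 : S.N q' * S.N q ≤ 2 ^ lg X := by
        calc S.N q' * S.N q ≤ 2 ^ n * 2 ^ (j + 1) := by
              refine Nat.mul_le_mul ?_ ?_
              · exact (lt_bl S q').le.trans (Nat.pow_le_pow_right (by norm_num) hq')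
              · rw [← hq]; exact (lt_bl S q).le
          _ = 2 ^ (n + (j + 1)) := by ring
          _ ≤ 2 ^ lg X := Nat.pow_le_pow_right (by norm_num) hn3
      have h5 : ((S.N q' * S.N q : ℕ) : ℝ) ≤ ((2 ^ lg X : ℕ) : ℝ) := by exact_mod_cast h4
      push_cast at h5
      exact h5.trans (pow_lg_le X hX)
    -- splitting
    obtain ⟨a, ha⟩ : ∃ a : B → ℝ, a = fun q' => if S.spl q' ∧ S.bl q' < j then Q - 1 else 0 :=
      ⟨_, rfl⟩
    obtain ⟨c, hc⟩ : ∃ c : B → ℝ, c = fun q' =>
      if S.spl q' ∧ j < S.bl q' ∧ S.bl q' ≤ th E j then 1 / Q - 1 else 0 := ⟨_, rfl⟩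
    have hac : ∀ q', f q' - 1 = a q' + c q' := by
      intro q'
      rw [hf, ha, hc]
      dsimp only
      by_cases h5 : S.spl q' ∧ S.bl q' < j
      · have h6 : ¬ (S.spl q' ∧ j < S.bl q' ∧ S.bl q' ≤ th E j) := by
          rintro ⟨_, h7, _⟩
          exact absurd h5.2 (by omega)
        rw [if_pos h5, if_neg h6, if_pos h5, add_zero]
      · rw [if_neg h5, if_neg h5, zero_add]
        split_ifs
        · rfl
        · ring
    have hc0 : ∀ q', c q' ≤ 0 := by
      intro q'
      rw [hc]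
      dsimp only
      split_ifs
      · linarith
      · exact le_refl _
    have ha0 : ∀ q', 0 ≤ a q' := by
      intro q'
      rw [ha]
      dsimp only
      split_ifs
      · linarith
      · exact le_refl _
    have hexpa : ∑ q' ∈ S.upto (X / S.N q), a q' / S.N q' ≤
        (Q - 1) * (K * (1 + Real.log j)) := by
      have h4 : ∑ q' ∈ S.upto (X / S.N q), a q' / S.N q' ≤
          ∑ q' ∈ S.below (j + 1), (Q - 1) * (1 / S.N q') := by
        rw [← Finset.sum_filter_add_sum_filter_not (S.upto (X / S.N q)) (fun q' => S.bl q' < j)]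
        have h5 : ∑ q' ∈ (S.upto (X / S.N q)).filter (fun q' => ¬ S.bl q' < j),
            a q' / S.N q' = 0 := by
          refine Finset.sum_eq_zero fun q' hq' => ?_
          have h6 := (Finset.mem_filter.1 hq').2
          rw [ha]
          dsimp only
          rw [if_neg (fun h => h6 h.2), zero_div]
        rw [h5, add_zero]
        have h7 : ∑ q' ∈ (S.upto (X / S.N q)).filter (fun q' => S.bl q' < j),
            a q' / S.N q' ≤ ∑ q' ∈ (S.upto (X / S.N q)).filter (fun q' => S.bl q' < j),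
            (Q - 1) * (1 / S.N q') := by
          refine Finset.sum_le_sum fun q' _ => ?_
          rw [mul_one_div]
          refine div_le_div_of_nonneg_right ?_ (hN0 q').le
          rw [ha]
          dsimp only
          split_ifs
          · exact le_refl _
          · linarith
        refine h7.trans (Finset.sum_le_sum_of_subset_of_nonneg ?_ fun q' _ _ => ?_)
        · intro q' hq'
          rw [mem_below']
          have := (Finset.mem_filter.1 hq').2
          omega
        · refine mul_nonneg (by linarith) (div_nonneg zero_le_one (hN0 q').le)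
      refine h4.trans ?_
      rw [← Finset.mul_sum]
      refine mul_le_mul_of_nonneg_left ?_ (by linarith)
      exact sum_below_le S K hK0.le hH.che j hj
    have hexpc : ∑ q' ∈ S.upto (X / S.N q), c q' / S.N q' ≤
        -(1 / 2) * ∑ q' ∈ S.below n with S.spl q' ∧ (j + 1) ≤ S.bl q', (1 : ℝ) / S.N q' := by
      rw [Finset.sum_filter, Finset.mul_sum]
      have h4 : ∑ q' ∈ S.upto (X / S.N q), c q' / S.N q' ≤
          ∑ q' ∈ S.below n, c q' / S.N q' := by
        rw [← Finset.sum_sdiff (fun q' hq' => hsub q' hq' : S.below n ⊆ S.upto (X / S.N q))]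
        have h5 : ∑ q' ∈ S.upto (X / S.N q) \ S.below n, c q' / S.N q' ≤ 0 := by
          refine Finset.sum_nonpos fun q' _ => ?_
          exact div_nonpos_of_nonpos_of_nonneg (hc0 q') (hN0 q').le
        linarith
      refine h4.trans (Finset.sum_le_sum fun q' hq' => ?_)
      rw [mem_below'] at hq'
      split_ifs with h5
      · have h6 : c q' = 1 / Q - 1 := by
          rw [hc]
          exact if_pos ⟨h5.1, h5.2, by omega⟩
        rw [h6, div_eq_mul_inv, one_div (S.N q' : ℝ)]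
        refine mul_le_mul_of_nonneg_right (by linarith) (inv_nonneg.2 (hN0 q').le)
      · rw [mul_zero]
        exact div_nonpos_of_nonpos_of_nonneg (hc0 q') (hN0 q').le
    have hexp : ∑ q' ∈ S.upto (X / S.N q), (f q' - 1) / S.N q' ≤
        (Q - 1) * (K * (1 + Real.log j)) +
        -(1 / 2) * ∑ q' ∈ S.below n with S.spl q' ∧ (j + 1) ≤ S.bl q', (1 : ℝ) / S.N q' := by
      have h4 : ∑ q' ∈ S.upto (X / S.N q), (f q' - 1) / S.N q' =
          ∑ q' ∈ S.upto (X / S.N q), a q' / S.N q' +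
          ∑ q' ∈ S.upto (X / S.N q), c q' / S.N q' := by
        rw [← Finset.sum_add_distrib]
        refine Finset.sum_congr rfl fun q' _ => ?_
        rw [hac, add_div]
      rw [h4]
      exact add_le_add hexpa hexpc
    have hmers := hH.mers (j + 1) n (by omega) hn1
    have hE : Real.exp (∑ q' ∈ S.upto (X / S.N q), (f q' - 1) / S.N q') ≤
        σ * (Real.exp K * ρ) := by
      have h4 : ρ = Real.exp (-(1 / (2 * K)) * Real.log (n / ((j + 1 : ℕ) : ℝ))) := by
        rw [hρ, Real.rpow_def_of_pos (by positivity)]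
        congr 1
        rw [Real.log_div hm0.ne' hn0.ne', Real.log_div hn0.ne' hm0.ne']
        ring
      refine (Real.exp_le_exp.2 hexp).trans ?_
      rw [Real.exp_add]
      refine mul_le_mul hσ1 ?_ (Real.exp_pos _).le hσ0
      rw [h4, ← Real.exp_add]
      refine Real.exp_le_exp.2 ?_
      have h5 : ∑ q' ∈ S.below n with S.spl q' ∧ (j + 1) ≤ S.bl q', (1 : ℝ) / S.N q' ≥
          (1 / K : ℝ) * Real.log (n / ((j + 1 : ℕ) : ℝ)) - K := hmers
      have h6 : -(1 / 2) * ∑ q' ∈ S.below n with S.spl q' ∧ (j + 1) ≤ S.bl q', (1 : ℝ) / S.N q' ≤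
          -(1 / 2) * ((1 / K : ℝ) * Real.log (n / ((j + 1 : ℕ) : ℝ)) - K) := by linarith
      refine h6.trans ?_
      have h7 : -(1 / 2) * ((1 / K : ℝ) * Real.log (n / ((j + 1 : ℕ) : ℝ)) - K) =
          -(1 / (2 * K)) * Real.log (n / ((j + 1 : ℕ) : ℝ)) + K / 2 := by
        field_simp
        ring
      rw [h7]
      linarith
    have hgY : g (X / S.N q) ≤ K * g X := hH.g_mono _ _ hYX
    have hgY0 : 0 ≤ g (X / S.N q) := by linarith [hH.g_one (X / S.N q)]
    have h8 : X / S.N q * min 1 (X / S.N q) * g (X / S.N q) ≤ X / S.N q * (K * g X) := by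
      calc X / S.N q * min 1 (X / S.N q) * g (X / S.N q)
          ≤ X / S.N q * 1 * g (X / S.N q) := by
            refine mul_le_mul_of_nonneg_right ?_ hgY0
            exact mul_le_mul_of_nonneg_left (min_le_left _ _) hY0.le
        _ = X / S.N q * g (X / S.N q) := by rw [mul_one]
        _ ≤ X / S.N q * (K * g X) := mul_le_mul_of_nonneg_left hgY hY0.le
    calc K * (X / S.N q * min 1 (X / S.N q) * g (X / S.N q)) *
          Real.exp (∑ q' ∈ S.upto (X / S.N q), (f q' - 1) / S.N q')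
        ≤ K * (X / S.N q * (K * g X)) * (σ * (Real.exp K * ρ)) := by
          refine mul_le_mul (mul_le_mul_of_nonneg_left h8 hK0.le) hE (Real.exp_pos _).le ?_
          positivity
      _ = (K : ℝ) ^ 2 * Real.exp K * σ * ρ * (X * g X) * (1 / S.N q) := by
          field_simp
  -- step 4
  refine (Finset.sum_le_sum h3).trans ?_
  rw [← Finset.mul_sum]
  have hche := hH.che j hj
  have hgX0 : 0 ≤ g X := by linarith
  have hj1 : (1 : ℝ) ≤ j := by exact_mod_cast hj
  calc (K : ℝ) ^ 2 * Real.exp K * σ * ρ * (X * g X) * ∑ q ∈ S.blk j, (1 : ℝ) / S.N q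
      ≤ (K : ℝ) ^ 2 * Real.exp K * σ * ρ * (X * g X) * (K / j) := by
        refine mul_le_mul_of_nonneg_left hche ?_
        positivity
    _ ≤ (K : ℝ) ^ 2 * Real.exp K * σ * ρ * (X * g X) * K := by
        refine mul_le_mul_of_nonneg_left (div_le_self hK0.le hj1) ?_
        positivity
    _ = ((K : ℝ) ^ 3 * Real.exp K * Real.exp (Q * K)) * (((j : ℝ) + 2) ^ (Qn * K) *
          (ρ * (X * g X))) := by rw [hσ]; ring
    _ ≤ K₁ * (((j : ℝ) + 2) ^ (Qn * K) * (ρ * (X * g X))) := by
        refine mul_le_mul_of_nonneg_right hK₁ ?_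
        positivity
    _ ≤ K' * (((j : ℝ) + 2) ^ K' * (ρ * (X * g X))) := by
        have hKK : (K₁ : ℝ) ≤ K' := by rw [hK']; exact_mod_cast Nat.le_add_right _ _
        have hpw : ((j : ℝ) + 2) ^ (Qn * K) ≤ ((j : ℝ) + 2) ^ K' :=
          pow_le_pow_right₀ (by linarith) (by rw [hK']; exact Nat.le_add_left _ _)
        refine mul_le_mul hKK ?_ (by positivity) (Nat.cast_nonneg _)
        exact mul_le_mul_of_nonneg_right hpw (by positivity)
    _ = K' * ((j : ℝ) + 2) ^ K' * ρ * (X * g X) := by ring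

theorem u_mns : Pool.Agent.Helper11.M3.U_MNS := u_mns_of Pool.Agent.Helper22.PP.c_dec

end Pool.Agent.Helper32.M3
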